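import Pool.Agent.T9h94.CZ.Spec4
import Pool.Agent.T9h66.CZ.Pull

/-!
# MP_f5330b_al, group CZ, part 3, piece (B6): `Om M P` is invariant
-/

set_option autoImplicit false

namespace Pool.Agent.T9h41.CZ

open Pool.Agent.T9h94.CZ Pool.Agent.T9h66.CZ

theorem mem_resKer {M P : Type} [Group M] [Group P] {m : M} :
    m ∈ resKer M P ↔ ∀ χ : M →* P, χ m = 1 := by
  rw [resKer, Subgroup.mem_iInf]
  rfl

/-- surjective homomorphisms with the same kernel -/
theorem exists_inv {F L : Type} [Group F] [Group L] (a b : F →* L) (ha : Function.Surjective a)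
    (hb : Function.Surjective b) (hab : ∀ w, a w = 1 ↔ b w = 1) :
    ∃ g g' : L →* L, (∀ w, g (a w) = b w) ∧ (∀ w, g' (b w) = a w) ∧ (∀ x, g' (g x) = x) ∧
      ∀ x, g (g' x) = x := by
  have key : ∀ (a b : F →* L), Function.Surjective a → (∀ w, a w = 1 → b w = 1) →
      ∃ g : L →* L, ∀ w, g (a w) = b w := by
    intro a b ha h
    refine ⟨a.liftOfSurjective ha ⟨b, fun w hw => h w hw⟩, fun w => ?_⟩
    exact a.liftOfRightInverse_comp_apply _ _ _ w
  obtain ⟨g, hg⟩ := key a b ha fun w => (hab w).1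
  obtain ⟨g', hg'⟩ := key b a hb fun w => (hab w).2
  refine ⟨g, g', hg, hg', fun x => ?_, fun x => ?_⟩
  · obtain ⟨w, rfl⟩ := ha x
    rw [hg, hg']
  · obtain ⟨w, rfl⟩ := hb x
    rw [hg', hg]

theorem center_map {L : Type} [Group L] (g g' : L →* L) (h1 : ∀ x, g' (g x) = x) {x : L}
    (hx : x ∈ Subgroup.center L) : g' x ∈ Subgroup.center L := by
  rw [Subgroup.mem_center_iff] at hx ⊢
  intro y
  have h2 := congrArg g' (hx (g y))
  rwa [map_mul, map_mul, h1] at h2

theorem sOmInv : SOmInv := by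
  intro α M P _ _ _ Z hZ hE
  obtain ⟨B, hB, hBp⟩ := sPull α M P Z hZ hE
  refine ⟨B, hB, fun Z' hZ' hC => ?_⟩
  obtain ⟨hp1, hp2⟩ := hBp Z' hZ' hC
  set π : M →* M ⧸ resKer M P := QuotientGroup.mk' (resKer M P) with hπ
  have hπs : Function.Surjective π := QuotientGroup.mk'_surjective _
  have hker : ∀ m : M, π m = 1 ↔ m ∈ resKer M P := fun m => QuotientGroup.eq_one_iff m
  obtain ⟨g, g', hg, hg', hgg, hgg'⟩ := exists_inv (π.comp (FreeGroup.lift Z))
    (π.comp (FreeGroup.lift Z')) (hπs.comp hZ) (hπs.comp hZ') (by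
      intro w
      rw [MonoidHom.comp_apply, MonoidHom.comp_apply, hker, hker, mem_resKer, mem_resKer]
      constructor
      · intro h χ
        obtain ⟨χ', hχ'⟩ := hp1 χ
        rw [← hχ', h]
      · intro h χ'
        obtain ⟨χ, hχ⟩ := hp2 χ'
        rw [hχ, h])
  rintro K ⟨U, ⟨f, h, hI, rfl⟩, rfl⟩
  refine ⟨((Subgroup.center _).comap ((g'.comp h).comp g)).comap π,
    ⟨_, ⟨(g'.comp f).comp g, (g'.comp h).comp g, ⟨fun x => ?_, fun x y => ?_⟩, rfl⟩, rfl⟩,
    fun w => ?_⟩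
  · change g' (f (g x)) * g' (h (g x)) = x
    rw [← map_mul, hI.1, hgg]
  · change g' (f (g x)) * g' (h (g y)) = g' (h (g y)) * g' (f (g x))
    rw [← map_mul, hI.2, map_mul]
  · have e1 : g (π (FreeGroup.lift Z w)) = π (FreeGroup.lift Z' w) := hg w
    change g' (h (g (π (FreeGroup.lift Z w)))) ∈ Subgroup.center _ ↔
      h (π (FreeGroup.lift Z' w)) ∈ Subgroup.center _
    rw [e1]
    constructor
    · intro h1
      have h2 := center_map g' g hgg' h1
      rwa [hgg'] at h2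
    · exact center_map g g' hgg

end Pool.Agent.T9h41.CZ
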